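import Pool.Agent.H68.L.R_seed8.H387R2.UDefs
import Pool.Agent.H68.L.R_seed8.H386R2.HL.B

set_option autoImplicit false

open Finset

namespace Pool.Agent.H387R2.Uni

open Pool.Agent.H386R2.HL

/-- double counting of `r`-subsets -/
lemma sum_choose {ι : Type*} (S : Finset ι) (A : Finset ℕ) (r : ℕ) (Q : ι → ℕ → Prop)
    [∀ n a, Decidable (Q n a)] :
    ∑ n ∈ S, ((A.filter (Q n)).card).choose r =
      ∑ T ∈ A.powersetCard r, (S.filter (fun n => ∀ t ∈ T, Q n t)).card := by
  classical
  have h1 : ∀ n ∈ S, ((A.filter (Q n)).card).choose r =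
      ∑ T ∈ A.powersetCard r, if (∀ t ∈ T, Q n t) then 1 else 0 := by
    intro n _
    rw [← card_powersetCard, ← card_filter]
    congr 1
    ext T
    simp only [mem_powersetCard, mem_filter, subset_iff]
    constructor
    · rintro ⟨h, h'⟩
      exact ⟨⟨fun t ht => (h ht).1, h'⟩, fun t ht => (h ht).2⟩
    · rintro ⟨⟨h, h'⟩, h2⟩
      exact ⟨fun t ht => ⟨h ht, h2 t ht⟩, h'⟩
  rw [sum_congr rfl h1, sum_comm]
  apply sum_congr rfl
  intro T _
  rw [card_filter]

/-- the enumeration of `T` -/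
noncomputable def en (T : Finset ℕ) : Fin T.card → ℕ := T.orderEmbOfFin rfl

lemma en_mem (T : Finset ℕ) (i : Fin T.card) : en T i ∈ T := orderEmbOfFin_mem T rfl i

lemma en_inj (T : Finset ℕ) : Function.Injective (en T) := (T.orderEmbOfFin rfl).injective

lemma en_surj {T : Finset ℕ} {t : ℕ} (ht : t ∈ T) : ∃ i, en T i = t := by
  have : t ∈ Set.range (T.orderEmbOfFin (rfl : T.card = T.card)) := by
    rw [range_orderEmbOfFin]
    exact ht
  exact this

lemma image_en (T : Finset ℕ) (f : ℕ → ℕ) : univ.image (fun i => f (en T i)) = T.image f := by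
  ext v
  simp only [mem_image, mem_univ, true_and]
  constructor
  · rintro ⟨i, rfl⟩
    exact ⟨en T i, en_mem T i, rfl⟩
  · rintro ⟨t, ht, rfl⟩
    obtain ⟨i, rfl⟩ := en_surj ht
    exact ⟨i, rfl⟩

lemma nu_en (T : Finset ℕ) (p : ℕ) : nu (en T) p = nuT T p := by
  unfold nu nuT
  rw [image_en T (· % p)]

lemma loc_en (T : Finset ℕ) (p : ℕ) : localFactor (en T) p = locT T p := by
  unfold localFactor locT
  rw [nu_en, inv_pow, inv_mul_eq_div]

lemma CT_en (T : Finset ℕ) : singularSeries (en T) = CT T := by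
  unfold singularSeries CT
  simp_rw [loc_en]

theorem CT_hasProd (T : Finset ℕ) : HasProd (fun p : Nat.Primes => locT T p) (CT T) := by
  have := (multipliable_localFactor (en T) (en_inj T)).hasProd
  simp_rw [loc_en] at this
  exact this

lemma CT_nonneg (T : Finset ℕ) : 0 ≤ CT T := by
  rw [← CT_en]; exact singularSeries_nonneg (en_inj T)

/-- the product of the primes up to `y` -/
noncomputable def WW (y : ℕ) : ℕ := ∏ p ∈ (y + 1).primesBelow, p

lemma WW_pos (y : ℕ) : 0 < WW y := prod_pos fun _ hp => (Nat.prime_of_mem_primesBelow hp).pos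

lemma WW_factors (y : ℕ) : (WW y).primeFactors = (y + 1).primesBelow :=
  Nat.primeFactors_prod fun _ hp => Nat.prime_of_mem_primesBelow hp

lemma totient_WW (y : ℕ) :
    (Nat.totient (WW y) : ℝ) = WW y * ∏ p ∈ (y + 1).primesBelow, (1 - 1 / (p : ℝ)) := by
  have := Nat.totient_eq_mul_prod_factors (WW y)
  rw [WW_factors] at this
  have h2 : ((Nat.totient (WW y) : ℚ) : ℝ) = ((WW y * ∏ p ∈ (y + 1).primesBelow, (1 - (p : ℚ)⁻¹) : ℚ) : ℝ) := by
    rw [this]
  push_cast at h2
  rw [h2]
  simp only [one_div]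

/-- residues `m` mod `W` such that all `m + t` are coprime to `W` -/
def gT (W : ℕ) (T : Finset ℕ) : ℕ := ((range W).filter (fun m => ∀ t ∈ T, Nat.Coprime W (m + t))).card

lemma gg_en (W : ℕ) (T : Finset ℕ) : gg W (en T) = gT W T := by
  unfold gg gT
  congr 1
  apply filter_congr
  intro m _
  constructor
  · intro h t ht
    obtain ⟨i, rfl⟩ := en_surj ht
    exact h i
  · intro h i
    exact h _ (en_mem T i)

/-- truncated singular series as a count -/
lemma sy_en (T : Finset ℕ) (y : ℕ) :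
    sy (en T) y = ((WW y : ℝ) / Nat.totient (WW y)) ^ T.card * (gT (WW y) T / WW y) := by
  unfold sy localFactor
  rw [prod_mul_distrib, prod_one_sub_nu (en T) _ (fun p hp => Nat.prime_of_mem_primesBelow hp)]
  change _ * ((gg (WW y) (en T) : ℝ) / (WW y : ℝ)) = _
  rw [gg_en]
  congr 1
  rw [Finset.prod_pow, totient_WW, prod_inv_distrib]
  congr 1
  have hW : (WW y : ℝ) ≠ 0 := by exact_mod_cast (WW_pos y).ne'
  rw [div_mul_eq_div_div, div_self hW, one_div]

lemma card_prs_le (r : ℕ) : (prs r).card ≤ r * r := by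
  unfold prs
  refine (card_filter_le _ _).trans ?_
  simp

/-- upper bound of the singular series by a count of residues -/
theorem CT_le (T : Finset ℕ) (y : ℕ) {K : ℝ} (hK : 1 ≤ K) {M : ℕ} (hM : ∀ t ∈ T, t ≤ M)
    (htt : ∀ n : ℕ, 1 ≤ n → n ≤ M → tt y n ≤ K) :
    CT T ≤ K ^ (T.card * T.card) * (((WW y : ℝ) / Nat.totient (WW y)) ^ T.card * (gT (WW y) T / WW y)) := by
  rw [← CT_en, ← sy_en]
  refine (singularSeries_le (en T) (en_inj T) y).trans ?_
  rw [mul_comm]
  apply mul_le_mul_of_nonneg_right _ (sy_nonneg _ _)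
  calc ∏ q ∈ prs T.card, tt y (Nat.dist (en T q.1) (en T q.2)) ≤ ∏ _q ∈ prs T.card, K := by
        apply prod_le_prod
        · intro q _
          exact zero_le_one.trans (one_le_tt _ _)
        · intro q hq
          have hq' : q.1 < q.2 := (mem_filter.1 hq).2
          have h1 : Nat.dist (en T q.1) (en T q.2) ≠ 0 := fun h =>
            hq'.ne (en_inj T (Nat.eq_of_dist_eq_zero h))
          apply htt _ (by omega)
          have h2 := hM _ (en_mem T q.1)
          have h3 := hM _ (en_mem T q.2)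
          unfold Nat.dist
          omega
    _ = K ^ (prs T.card).card := by rw [prod_const]
    _ ≤ K ^ (T.card * T.card) := pow_le_pow_right₀ hK (card_prs_le _)

/-- tail factor -/
lemma tt_le (y n : ℕ) (hy : 2 ≤ y) (hn : 1 ≤ n) :
    tt y n ≤ Real.exp (2 * Real.log n / (y * Real.log y)) := by
  classical
  set S := n.primeFactors.filter (fun p => y < p) with hS
  have hSp : ∀ p ∈ S, p.Prime ∧ p ∣ n ∧ y < p := by
    intro p hp
    rw [hS, mem_filter, Nat.mem_primeFactors] at hp
    exact ⟨hp.1.1, hp.1.2.1, hp.2⟩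
  have hy0 : (0:ℝ) < y := by positivity
  have hlogy : 0 < Real.log y := Real.log_pos (by exact_mod_cast hy)
  have h1 : tt y n ≤ Real.exp (2 / y) ^ S.card := by
    unfold tt
    rw [← hS, ← prod_const]
    apply prod_le_prod
    · intro p hp
      exact zero_le_one.trans (one_le_inv (hSp p hp).1)
    · intro p hp
      obtain ⟨hp1, _, hp3⟩ := hSp p hp
      have hp0 : (0:ℝ) < p := by exact_mod_cast hp1.pos
      have hp2 : (2:ℝ) ≤ p := by exact_mod_cast hp1.two_le
      have hyp : (y:ℝ) < p := by exact_mod_cast hp3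
      have a1 : (1 - 1 / (p : ℝ))⁻¹ ≤ 1 + 2 / p := by
        have a2 : 1 - 1 / (p : ℝ) = (p - 1) / p := by field_simp
        rw [a2, inv_div, div_le_iff₀ (by linarith)]
        have : (1 + 2 / (p:ℝ)) * (p - 1) = p + 1 - 2 / p := by field_simp; ring
        rw [this]
        have : 2 / (p:ℝ) ≤ 1 := by rw [div_le_one hp0]; exact hp2
        linarith
      have a3 : 2 / (p:ℝ) ≤ 2 / y := div_le_div_of_nonneg_left (by norm_num) hy0 hyp.le
      have a4 := Real.add_one_le_exp (2 / (y:ℝ))
      linarith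
  refine h1.trans ?_
  rw [← Real.exp_nat_mul]
  apply Real.exp_le_exp.2
  have h2 : (y : ℝ) ^ S.card ≤ n := by
    have : y ^ S.card ≤ n := by
      calc y ^ S.card = ∏ _p ∈ S, y := by rw [prod_const]
        _ ≤ ∏ p ∈ S, p := prod_le_prod' fun p hp => (hSp p hp).2.2.le
        _ ≤ n := by
          apply Nat.le_of_dvd (by omega)
          exact (prod_dvd_prod_of_subset _ _ _ (filter_subset _ _)).trans (Nat.prod_primeFactors_dvd n)
    exact_mod_cast this
  have h3 : S.card * Real.log y ≤ Real.log n := by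
    rw [← Real.log_pow]
    exact Real.log_le_log (by positivity) h2
  have h4 : (S.card : ℝ) ≤ Real.log n / Real.log y := by
    rw [le_div_iff₀ hlogy]; exact h3
  calc (S.card : ℝ) * (2 / y) ≤ (Real.log n / Real.log y) * (2 / y) := by gcongr
    _ = _ := by field_simp

end Pool.Agent.H387R2.Uni
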