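import Pool.Agent.H68.L.R_seed8.H387R2.U2
import Pool.Agent.H68.L.R_seed8.H343R2.EH.Primes
import Pool.Agent.H68.L.R_seed8.H343R2.EH.Psi
import Pool.Agent.H68.L.R_seed8.Helper507.PNT

set_option autoImplicit false

open Finset Filter Topology

namespace Pool.Agent.H387R2.Uni

/-- powers of the logarithm are small -/
lemma log_pow_small (C : ℝ) {η : ℝ} (hη : 0 < η) : ∀ᶠ x : ℝ in atTop, Real.log x ^ C ≤ η * x := by
  have h := (isLittleO_log_rpow_rpow_atTop C (s := 1) one_pos).def hη
  filter_upwards [h, eventually_ge_atTop 1] with x hx hx1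
  rw [Real.rpow_one, Real.norm_of_nonneg (Real.rpow_nonneg (Real.log_nonneg hx1) _),
    Real.norm_of_nonneg (by linarith)] at hx
  exact hx

/-- the prime number theorem in progressions to moduli up to `(log x)^2` -/
theorem siegel : ∃ x0 : ℕ, ∀ x : ℕ, x0 ≤ x → ∀ q : ℕ, 1 ≤ q → (q : ℝ) ≤ Real.log x ^ 2 →
    ∀ a : ℕ, a < q → a.Coprime q → |H343E.piAP x q a - H343E.pi1 x / (Nat.totient q : ℝ)| ≤
      x / Real.log x ^ 6 := by
  obtain ⟨B, x1, h⟩ := H343E.primes_of 6 (H343E.unsmoothed (6 + 2))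
  have hs := (log_pow_small (B + 4 : ℕ) (η := 1) one_pos)
  obtain ⟨x2, hx2⟩ := eventually_atTop.1 (tendsto_natCast_atTop_atTop.eventually
    (hs.and (eventually_ge_atTop (Real.exp 1))))
  refine ⟨max x1 x2, fun x hx q hq hqx a ha hac => ?_⟩
  obtain ⟨h1, h2⟩ := hx2 x ((le_max_right _ _).trans hx)
  have hlog : 1 ≤ Real.log x := by
    rw [← Real.log_exp 1]
    exact Real.log_le_log (Real.exp_pos _) h2
  have hL0 : 0 < Real.log x := by linarith
  rw [one_mul, Real.rpow_natCast] at h1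
  have hB : 0 < Real.log x ^ B := by positivity
  have hq0 : (0:ℝ) ≤ q := Nat.cast_nonneg q
  have hq4 : (q:ℝ) ^ 2 * Real.log x ^ B ≤ x := by
    calc (q:ℝ) ^ 2 * Real.log x ^ B ≤ (Real.log x ^ 2) ^ 2 * Real.log x ^ B := by gcongr
      _ = Real.log x ^ (B + 4) := by ring
      _ ≤ x := h1
  have hq1 : (1:ℝ) ≤ q := by exact_mod_cast hq
  classical
  have hmain := h x ((le_max_left _ _).trans hx) 1 le_rfl q (by
      rw [le_div_iff₀ hB]
      refine le_trans ?_ hq4
      gcongr
      nlinarith) (by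
      rw [one_mul, le_div_iff₀ hB]; exact hq4)
    (fun q' => if q' = q then {a} else ∅) ⟨by
      intro q' a' ha'
      beta_reduce at ha'
      split_ifs at ha' with hqq
      · rw [mem_singleton] at ha'
        rw [ha', hqq]
        exact ⟨ha, hac⟩
      · exact absurd ha' (notMem_empty _), by
      intro q'
      beta_reduce
      split_ifs
      · simp
      · simp⟩
  rw [one_mul] at hmain
  have hq' : q ∈ Icc 1 q := mem_Icc.2 ⟨hq, le_rfl⟩
  have h3 := single_le_sum (f := fun q' => ∑ a' ∈ (if q' = q then ({a} : Finset ℕ) else ∅),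
    |H343E.piAP x q' a' - H343E.pi1 x / (Nat.totient q' : ℝ)|)
    (fun i _ => sum_nonneg fun _ _ => abs_nonneg _) hq'
  beta_reduce at h3
  rw [if_pos rfl, sum_singleton] at h3
  exact h3.trans hmain

lemma pi1_eq (x : ℕ) : H343E.pi1 x = Nat.primeCounting x := by
  unfold H343E.pi1
  rw [Nat.primeCounting, Nat.primeCounting', Nat.count_eq_card_filter_range]
  congr 2
  ext p
  simp only [mem_filter, mem_Icc, mem_range]
  constructor
  · rintro ⟨⟨h1, h2⟩, h3⟩; exact ⟨by omega, h3⟩
  · rintro ⟨h1, h2⟩; exact ⟨⟨h2.one_le, by omega⟩, h2⟩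

/-- the prime number theorem, lower bound -/
lemma pi1_lower {η : ℝ} (hη : 0 < η) : ∀ᶠ x : ℕ in atTop, (1 - η) * (x / Real.log x) ≤ H343E.pi1 x := by
  have h := (Pool.Agent.Helper507.PNT.pi_tendsto.comp (tendsto_natCast_atTop_atTop (R := ℝ))).eventually
    (lt_mem_nhds (show 1 - η < 1 by linarith))
  filter_upwards [h, eventually_ge_atTop 3] with x hx hx3
  simp only [Function.comp, Nat.floor_natCast] at hx
  have hx0 : (0:ℝ) < x := by positivity
  have hL : 0 < Real.log x := Real.log_pos (by exact_mod_cast (by omega : 1 < x))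
  rw [lt_div_iff₀ hx0] at hx
  rw [pi1_eq, mul_div_assoc', div_le_iff₀ hL]
  linarith

end Pool.Agent.H387R2.Uni
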